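import Mathlib
import Pool.Agent.Lib.helper12.GWB

set_option autoImplicit false

namespace Pool.Agent.Results.MP_2fa7ec_pr.QTwo
open Pool.Agent.Lib.helper12.GW

theorem result {X : Type} [Countable X] (μ : X → PMF (X →₀ ℕ))
    (h : ∀ x y, Relation.ReflTransGen (fun a b => ∃ f, μ a f ≠ 0 ∧ f b ≠ 0) x y) :
    S μ ⊆ {q μ Set.univ, 1} ∨ Cardinal.mk (S μ) = Cardinal.continuum := by
  refine or_iff_not_imp_right.2 fun k s hs => ?_
  by_cases e : ∃ x, s x = 1
  · obtain ⟨x, e⟩ := e
    refine Or.inr (funext fun y => ?_)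
    induction h x y with
    | refl => exact e
    | tail _ a ih =>
      obtain ⟨f, a, b⟩ := a
      exact G_one hs.1 (by rw [hs.2, ih]; rfl) a b
  · have := (dich' hs).resolve_right k
    rw [show {y | s y ≠ 1} = Set.univ from Set.eq_univ_of_forall fun y a => e ⟨y, a⟩] at this
    exact Or.inl this

end Pool.Agent.Results.MP_2fa7ec_pr.QTwo
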